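import Pool.Agent.Helper42.SG.GoalsT

set_option autoImplicit false

open MvPolynomial

namespace Pool.Agent.Helper36.SGM

open WeierstrassCurve Height
open Pool.Agent.Helper29.BL Pool.Agent.Helper92.Ru Pool.Agent.Helper42.SG

section

variable {K : Type} [Field K] {σ : Type} [Fintype σ]

theorem coeff_scale (c : σ → K) (p : MvPolynomial σ K) (e : σ →₀ ℕ) :
    coeff e (aeval (fun h => C (c h) * X h : σ → MvPolynomial σ K) p) =
      coeff e p * ∏ h, c h ^ e h := by
  classical
  induction p using MvPolynomial.induction_on' with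
  | monomial s a =>
    have h1 : aeval (fun h => C (c h) * X h : σ → MvPolynomial σ K) (monomial s a) =
        monomial s (a * ∏ h, c h ^ s h) := by
      rw [aeval_monomial, monomial_eq (a := a * ∏ h, c h ^ s h), Finsupp.prod_fintype _ _
        (fun i => pow_zero _), Finsupp.prod_fintype _ _ (fun i => pow_zero _)]
      simp only [mul_pow, Finset.prod_mul_distrib, C_mul, map_prod, map_pow, mul_assoc,
        MvPolynomial.algebraMap_eq]
    rw [h1, coeff_monomial, coeff_monomial]
    by_cases h : s = e
    · subst h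
      simp
    · simp [h]
  | add p q hp hq =>
    rw [map_add, coeff_add, coeff_add, hp, hq, add_mul]

theorem wt_mono (d : σ → ℕ) {a e : σ →₀ ℕ} (h : a ≤ e) : wt d a ≤ wt d e := by
  unfold wt
  apply Finset.sum_le_sum
  intro i _
  have := h i
  gcongr

end

theorem t_QIX : QIX := by
  classical
  intro K _ _ W n ξ ψ X Ψ Q f g d θ hT hψ hd hQ hf e he
  by_contra hlt
  rw [not_le] at hlt
  rw [mem_support_iff] at he
  apply he
  have hc : ∀ h : Fin (2 * n + 2), (4 * ψ h.val ^ 2 : K) ≠ 0 := by
    intro h
    have := hψ h.val h.isLt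
    have h4 : (4 : K) ≠ 0 := by norm_num
    exact mul_ne_zero h4 (pow_ne_zero _ this)
  have key : coeff e (aeval (fun h => C (4 * ψ h.val ^ 2) * MvPolynomial.X h :
      Fin (2 * n + 2) → MvPolynomial (Fin (2 * n + 2)) K)
      (shiftP (fun h : Fin (2 * n + 2) => ξ h.val) Q)) = 0 := by
    have h1 : MvPowerSeries.coeff e (f * g) = 0 := by
      rw [MvPowerSeries.coeff_mul]
      apply Finset.sum_eq_zero
      rintro ⟨a, b⟩ hab
      have hab' : a + b = e := by simpa using hab
      have hae : a ≤ e := by rw [← hab']; exact le_self_add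
      rw [hf a ((wt_mono d hae).trans_lt hlt), zero_mul]
    have h2 : aeval (fun h : Fin (2 * n + 2) => X h.val) Q =
        ((aeval (fun h => C (4 * ψ h.val ^ 2) * MvPolynomial.X h :
          Fin (2 * n + 2) → MvPolynomial (Fin (2 * n + 2)) K)
          (shiftP (fun h : Fin (2 * n + 2) => ξ h.val) Q) : MvPolynomial (Fin (2 * n + 2)) K) :
          MvPowerSeries (Fin (2 * n + 2)) K) := by
      have h3 : aeval (fun h : Fin (2 * n + 2) => X h.val) =
          ((MvPolynomial.coeToMvPowerSeries.algHom (R := K) (σ := Fin (2 * n + 2)) K).comp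
            (aeval (fun h => C (4 * ψ h.val ^ 2) * MvPolynomial.X h :
              Fin (2 * n + 2) → MvPolynomial (Fin (2 * n + 2)) K))).comp
            (shiftP (fun h : Fin (2 * n + 2) => ξ h.val)) := by
        apply MvPolynomial.algHom_ext
        intro h
        simp only [aeval_X, AlgHom.comp_apply, shiftP, hT.eqX h]
        simp [MvPolynomial.coeToMvPowerSeries.algHom_apply, MvPowerSeries.map_id, add_comm]
      rw [h3]
      simp [MvPolynomial.coeToMvPowerSeries.algHom_apply, MvPowerSeries.map_id]
    rw [← MvPolynomial.coeff_coe, ← h2, hQ, h1]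
  rw [coeff_scale] at key
  rcases mul_eq_zero.1 key with h | h
  · exact h
  · exfalso
    rw [Finset.prod_eq_zero_iff] at h
    obtain ⟨i, -, hi⟩ := h
    exact pow_ne_zero _ (hc i) hi

end Pool.Agent.Helper36.SGM
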